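import Pool.Agent.Helper51.PF.Goals

/-! # PF: the moved residues as units (packet VV) -/

set_option autoImplicit false

open Finset

namespace Pool.Agent.Helper85.PF

open Pool.Agent.Helper51.PF

theorem g_vv (hMV : G_MV) : Pool.Agent.Helper51.PF.G_VV := by
  intro p s hp h3 hs
  have hh1 : 1 ≤ hh p := by
    unfold hh
    omega
  have hhp : hh p < p := by
    unfold hh
    omega
  obtain ⟨m1, -⟩ := hMV p s hh1 hs
  have hx : ∀ j : Fin (kk p s), 1 ≤ xx p s j ∧ xx p s j ≤ hh p := by
    intro j
    have h1 : xx p s j ∈ moved p s := by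
      rw [m1]
      exact mem_image_of_mem _ (mem_range.2 j.2)
    unfold moved at h1
    rw [mem_filter, mem_Icc] at h1
    exact h1.1
  have hne : ∀ j : Fin (kk p s), (xx p s j : ZMod p) ≠ 0 := by
    intro j h
    rw [ZMod.natCast_eq_zero_iff] at h
    have := Nat.le_of_dvd (by have := (hx j).1; omega) h
    have := (hx j).2
    omega
  have hv : ∀ j : Fin (kk p s), ((vv p s j : (ZMod p)ˣ) : ZMod p) = (xx p s j : ZMod p) := by
    intro j
    unfold vv
    rw [dif_pos (hne j), Units.val_mk0]
  refine ⟨hv, fun i j hij => ?_⟩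
  have h1 : (xx p s i : ZMod p) = (xx p s j : ZMod p) := by rw [← hv, ← hv, hij]
  rw [ZMod.natCast_eq_natCast_iff] at h1
  have h2 := Nat.ModEq.eq_of_lt_of_lt h1 (by have := (hx i).2; omega) (by have := (hx j).2; omega)
  unfold xx at h2
  have h3 : (i : ℕ) * s = (j : ℕ) * s := by omega
  exact Fin.ext (Nat.eq_of_mul_eq_mul_right (by omega) h3)

end Pool.Agent.Helper85.PF
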